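import Pool.Agent.N869.GK.StmX

set_option autoImplicit false

/-! # GK-CNTW: the number of the elements of the group of the local conditions -/

open scoped Classical

namespace Pool.Agent.N306.GK

open Finset
open Pool.Agent.N869.GK Pool.Agent.N869.GK.D Pool.Agent.N869.GK.X
open Pool.Agent.TH841.SH (LocC)

theorem sq_trans {K : Type} [Field K] [CharZero K] {t R u w : ℤ} (hu : u ≠ 0)
    (h1 : IsSquare ((t * (R * u) : ℤ) : K)) (h2 : IsSquare ((u * w : ℤ) : K)) :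
    IsSquare ((t * (R * w) : ℤ) : K) := by
  obtain ⟨a, ha⟩ := h1
  obtain ⟨b, hb⟩ := h2
  have hu' : (u : K) ≠ 0 := by exact_mod_cast hu
  refine ⟨a * b / u, ?_⟩
  push_cast at *
  rw [div_mul_div_comm, eq_div_iff (mul_ne_zero hu' hu')]
  linear_combination ((u : K) * w) * ha + (a * a) * hb

theorem sq_diff {K : Type} [Field K] [CharZero K] {t t' R u u' : ℤ} (hR : R ≠ 0) (hu : u ≠ 0)
    (hu' : u' ≠ 0)
    (h1 : IsSquare ((t * (R * u) : ℤ) : K)) (h2 : IsSquare ((t' * (R * u') : ℤ) : K))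
    (h3 : IsSquare ((u * u' : ℤ) : K)) :
    IsSquare ((t * t' : ℤ) : K) := by
  obtain ⟨a, ha⟩ := h1
  obtain ⟨b, hb⟩ := h2
  obtain ⟨c, hc⟩ := h3
  have hR0 : (R : K) ≠ 0 := by exact_mod_cast hR
  have hu0 : (u : K) ≠ 0 := by exact_mod_cast hu
  have hu0' : (u' : K) ≠ 0 := by exact_mod_cast hu'
  push_cast at *
  have hc0 : c ≠ 0 := by
    rintro rfl
    rw [mul_zero] at hc
    exact mul_ne_zero hu0 hu0' hc
  refine ⟨a * b / (R * c), ?_⟩
  have h0 : (R : K) * c ≠ 0 := mul_ne_zero hR0 hc0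
  rw [div_mul_div_comm, eq_div_iff (mul_ne_zero h0 h0)]
  linear_combination (-(t : K) * t' * R * R) * hc + (t' * R * u' : K) * ha + (a * a) * hb

theorem dvd_MM {b : Finset ℕ} (hb : ∀ l ∈ b, l.Prime ∧ l ≠ 2) {p : ℕ} (hp : p.Prime)
    (h : p ∣ MM b) : p = 2 ∨ p ∈ b := by
  unfold MM at h
  rcases (Nat.Prime.dvd_mul hp).1 h with h | h
  · left
    have : (8 : ℕ) = 2 ^ 3 := by norm_num
    rw [this] at h
    exact (Nat.prime_dvd_prime_iff_eq hp Nat.prime_two).1 (hp.dvd_of_dvd_pow h)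
  · right
    obtain ⟨l, hl, hpl⟩ := (Prime.dvd_finsetProd_iff hp.prime _).1 h
    rw [(Nat.prime_dvd_prime_iff_eq hp (hb l hl).1).1 hpl]
    exact hl

theorem two_dvd_MM (b : Finset ℕ) : 2 ∣ MM b := by
  unfold MM
  exact Dvd.dvd.mul_right (by norm_num) _

theorem mem_dvd_MM {b : Finset ℕ} {l : ℕ} (hl : l ∈ b) : l ∣ MM b := by
  unfold MM
  exact Dvd.dvd.mul_left (dvd_prod_of_mem _ hl) _

theorem cop_ne {b : Finset ℕ} {u : ℕ} (h : u.Coprime (MM b)) : (u : ℤ) ≠ 0 := by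
  intro h0
  have h1 : u = 0 := by exact_mod_cast h0
  subst h1
  have h2 := two_dvd_MM b
  rw [Nat.coprime_zero_left] at h
  rw [h] at h2
  omega

theorem card_r {b : Finset ℕ} {r : ℕ} {g : Fin r → ℤ} (hg : Gen b g) : r = 2 + b.card := by
  have h1 : (univ : Finset (Fin r)).image g =
      {-1, 2} ∪ b.image (fun l : ℕ => (l : ℤ)) := by
    ext z
    simp only [mem_image, mem_univ, true_and, mem_union, mem_insert, mem_singleton]
    rw [hg.im z]
    constructor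
    · rintro (h | h | ⟨l, hl, h⟩)
      · exact Or.inl (Or.inl h)
      · exact Or.inl (Or.inr h)
      · exact Or.inr ⟨l, hl, h.symm⟩
    · rintro ((h | h) | ⟨l, hl, h⟩)
      · exact Or.inl h
      · exact Or.inr (Or.inl h)
      · exact Or.inr (Or.inr ⟨l, hl, h.symm⟩)
  have h2 := congrArg Finset.card h1
  rw [card_image_of_injective _ hg.inj, card_univ, Fintype.card_fin, card_union_of_disjoint,
    card_image_of_injective _ Nat.cast_injective] at h2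
  · rw [h2]
    congr 1
  · rw [disjoint_left]
    intro z hz hz2
    obtain ⟨l, hl, h⟩ := mem_image.1 hz2
    simp only [mem_insert, mem_singleton] at hz
    rcases hz with hz | hz
    · omega
    · exact (hg.odd l hl).2 (by omega)

/-- **GK-CNTW** -/
theorem t_CNTW : S_CNTW := by
  intro hG hL hC hA b e1 e2 e3 r g hg hc hR h2 hm
  have hGr := hG.2 b r g hg
  have hLr := hL hG b r g hg
  obtain ⟨PR, hPR, hPR2⟩ := hR
  obtain ⟨P2, hP2, hP22⟩ := h2
  have hP : ∀ l : {l // l ∈ b}, ∃ P : Fin 4 → ℤ × ℤ, (∀ i, (P i).1 ≠ 0 ∧ (P i).2 ≠ 0) ∧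
      ∀ [Fact l.1.Prime], (∀ i, LocC ℚ_[l.1] e1 e2 e3 (P i).1 (P i).2) ∧
      ∀ i j, i ≠ j → ¬ (IsSquare (((P i).1 * (P j).1 : ℤ) : ℚ_[l.1]) ∧
        IsSquare (((P i).2 * (P j).2 : ℤ) : ℚ_[l.1])) := fun l => by
    have hf : Fact l.1.Prime := ⟨(hg.odd _ l.2).1⟩
    obtain ⟨P, hP, hP'⟩ := hm l.1
    exact ⟨P, fun i => ⟨(hP i).1, (hP i).2.1⟩, fun i => (hP i).2.2, hP'⟩
  choose Pl hPl hPl2 using hP
  have apx : ∀ (φ : ℤ × ℤ → ℤ), (∀ i, φ (PR i) ≠ 0) → (∀ i, φ (P2 i) ≠ 0) →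
      (∀ l i, φ (Pl l i) ≠ 0) → ∀ c : Fin 2 × Fin 8 × ({l // l ∈ b} → Fin 4),
      ∃ (x : Gr r) (u : ℕ), u.Coprime (MM b) ∧
        IsSquare ((φ (PR c.1) * (rep g x * u) : ℤ) : ℝ) ∧
        IsSquare ((φ (P2 c.2.1) * (rep g x * u) : ℤ) : ℚ_[2]) ∧
        ∀ l : {l // l ∈ b}, ∀ [Fact l.1.Prime],
          IsSquare ((φ (Pl l (c.2.2 l)) * (rep g x * u) : ℤ) : ℚ_[l.1]) := by
    intro φ h0 h0' h0'' c
    obtain ⟨x, u, hu, hx, hs⟩ := hA hG hL b r g hg (φ (PR c.1))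
      (fun p => if p = 2 then φ (P2 c.2.1) else
        if h : p ∈ b then φ (Pl ⟨p, h⟩ (c.2.2 ⟨p, h⟩)) else 1) (h0 _) (fun p => by
          split_ifs
          · exact h0' _
          · exact h0'' _ _
          · exact one_ne_zero)
    refine ⟨x, u, hu, hx, ?_, ?_⟩
    · have := hs 2 (two_dvd_MM b)
      simpa using this
    · intro l hl
      have := hs l.1 (mem_dvd_MM l.2)
      simpa only [if_neg (hg.odd _ l.2).2, dif_pos l.2] using this
  choose x0 u0 hu0 hR0 h20 hl0 using apx Prod.fst (fun i => (hPR i).1) (fun i => (hP2 i).1)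
    (fun l i => (hPl l i).1)
  choose x1 u1 hu1 hR1 h21 hl1 using apx Prod.snd (fun i => (hPR i).2.1) (fun i => (hP2 i).2.1)
    (fun l i => (hPl l i).2)
  -- squares
  have hsq : ∀ u w : ℕ, u.Coprime (MM b) → w.Coprime (MM b) → lam g u = lam g w →
      IsSquare (((u : ℤ) * (w : ℤ) : ℤ) : ℝ) ∧
      ∀ (p : ℕ) [Fact p.Prime], p ∣ MM b → IsSquare (((u : ℤ) * (w : ℤ) : ℤ) : ℚ_[p]) := by
    intro u w hu hw h
    have h1 := hLr.1 u w hu hw
    have h3 : lam g (u * w) = 0 := by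
      rw [h1, h]
      funext i
      exact CharTwo.add_self_eq_zero _
    have h4 := hLr.2.2.2.2.2.2 (u * w) (Nat.Coprime.mul_left hu hw) h3
    refine ⟨by exact_mod_cast h4.1, fun p _ hp => by exact_mod_cast h4.2 p hp⟩
  have hrep : ∀ x, rep g x ≠ 0 := fun x => (hGr.1 x).ne_zero
  obtain ⟨F, hF⟩ : ∃ F : Fin 2 × Fin 8 × ({l // l ∈ b} → Fin 4) → Hr r,
      F = fun c => (![x0 c, x1 c], ![lam g (u0 c), lam g (u1 c)]) := ⟨_, rfl⟩
  have hin : ∀ c, InW b e1 e2 e3 g (F c) := by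
    intro c w hw
    obtain ⟨hw0, hw0'⟩ := hw 0
    obtain ⟨hw1, hw1'⟩ := hw 1
    have a0 : lam g (w 0) = lam g (u0 c) := by rw [hw0', hF]; rfl
    have a1 : lam g (w 1) = lam g (u1 c) := by rw [hw1', hF]; rfl
    have b0 : (F c).1 0 = x0 c := by rw [hF]; rfl
    have b1 : (F c).1 1 = x1 c := by rw [hF]; rfl
    rw [b0, b1]
    have s0 := hsq (u0 c) (w 0) (hu0 c) hw0 a0.symm
    have s1 := hsq (u1 c) (w 1) (hu1 c) hw1 a1.symm
    have n0 : rep g (x0 c) * (w 0 : ℤ) ≠ 0 := mul_ne_zero (hrep _) (cop_ne hw0)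
    have n1 : rep g (x1 c) * (w 1 : ℤ) ≠ 0 := mul_ne_zero (hrep _) (cop_ne hw1)
    obtain ⟨gR, gp⟩ := hC e1 e2 e3 hc.h12 hc.h13 hc.h23
    refine ⟨?_, ?_⟩
    · exact gR.cls _ _ _ _ (hPR c.1).1 (hPR c.1).2.1 n0 n1
        (sq_trans (cop_ne (hu0 c)) (hR0 c) s0.1) (sq_trans (cop_ne (hu1 c)) (hR1 c) s1.1)
        (hPR c.1).2.2
    · intro p hfp hp
      rcases dvd_MM hg.odd hfp.1 hp with h | h
      · subst h
        exact (gp 2).cls _ _ _ _ (hP2 c.2.1).1 (hP2 c.2.1).2.1 n0 n1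
          (sq_trans (cop_ne (hu0 c)) (h20 c) (s0.2 2 hp))
          (sq_trans (cop_ne (hu1 c)) (h21 c) (s1.2 2 hp)) (hP2 c.2.1).2.2
      · exact (gp p).cls _ _ _ _ (hPl ⟨p, h⟩ (c.2.2 ⟨p, h⟩)).1 (hPl ⟨p, h⟩ (c.2.2 ⟨p, h⟩)).2 n0 n1
          (sq_trans (cop_ne (hu0 c)) (hl0 c ⟨p, h⟩) (s0.2 p hp))
          (sq_trans (cop_ne (hu1 c)) (hl1 c ⟨p, h⟩) (s1.2 p hp))
          ((hPl2 ⟨p, h⟩).1 _)
  have hinj : Function.Injective fun c => (⟨F c, hin c⟩ : {X : Hr r // InW b e1 e2 e3 g X}) := by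
    intro c c' hcc
    have h1 : F c = F c' := congrArg Subtype.val hcc
    have b0 : x0 c = x0 c' := by
      have := congrFun (congrArg Prod.fst h1) 0
      rw [hF] at this
      exact this
    have b1 : x1 c = x1 c' := by
      have := congrFun (congrArg Prod.fst h1) 1
      rw [hF] at this
      exact this
    have a0 : lam g (u0 c) = lam g (u0 c') := by
      have := congrFun (congrArg Prod.snd h1) 0
      rw [hF] at this
      exact this
    have a1 : lam g (u1 c) = lam g (u1 c') := by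
      have := congrFun (congrArg Prod.snd h1) 1
      rw [hF] at this
      exact this
    have s0 := hsq (u0 c) (u0 c') (hu0 c) (hu0 c') a0
    have s1 := hsq (u1 c) (u1 c') (hu1 c) (hu1 c') a1
    have q0 : c.1 = c'.1 := by
      by_contra hne
      refine hPR2 _ _ hne ⟨?_, ?_⟩
      · exact sq_diff (hrep (x0 c)) (cop_ne (hu0 c)) (cop_ne (hu0 c')) (hR0 c)
          (b0 ▸ hR0 c') s0.1
      · exact sq_diff (hrep (x1 c)) (cop_ne (hu1 c)) (cop_ne (hu1 c')) (hR1 c)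
          (b1 ▸ hR1 c') s1.1
    have q1 : c.2.1 = c'.2.1 := by
      by_contra hne
      refine hP22 _ _ hne ⟨?_, ?_⟩
      · exact sq_diff (hrep (x0 c)) (cop_ne (hu0 c)) (cop_ne (hu0 c')) (h20 c)
          (b0 ▸ h20 c') (s0.2 2 (two_dvd_MM b))
      · exact sq_diff (hrep (x1 c)) (cop_ne (hu1 c)) (cop_ne (hu1 c')) (h21 c)
          (b1 ▸ h21 c') (s1.2 2 (two_dvd_MM b))
    have q2 : c.2.2 = c'.2.2 := by
      funext l
      by_contra hne
      have hf : Fact l.1.Prime := ⟨(hg.odd _ l.2).1⟩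
      refine (hPl2 l).2 _ _ hne ⟨?_, ?_⟩
      · exact sq_diff (hrep (x0 c)) (cop_ne (hu0 c)) (cop_ne (hu0 c')) (hl0 c l)
          (b0 ▸ hl0 c' l) (s0.2 l.1 (mem_dvd_MM l.2))
      · exact sq_diff (hrep (x1 c)) (cop_ne (hu1 c)) (cop_ne (hu1 c')) (hl1 c l)
          (b1 ▸ hl1 c' l) (s1.2 l.1 (mem_dvd_MM l.2))
    exact Prod.ext q0 (Prod.ext q1 q2)
  have hcard : Nat.card (Fin 2 × Fin 8 × ({l // l ∈ b} → Fin 4)) = 4 ^ r := by
    rw [Nat.card_eq_fintype_card, Fintype.card_prod, Fintype.card_prod, Fintype.card_fun,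
      Fintype.card_fin, Fintype.card_fin, Fintype.card_fin, Fintype.card_coe, card_r hg, pow_add]
    ring
  rw [← hcard]
  exact Nat.card_le_card_of_injective _ hinj

end Pool.Agent.N306.GK
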